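import Mathlib

/-
The integral over a Euclidean ball of a function of one linear form, by slices.
-/

namespace Pool.Agent.MP_66cee2_co.H71

open MeasureTheory Set Metric
open scoped RealInnerProductSpace

/-- a number in front of a vector. -/
noncomputable def cns (m : ℕ) (p : ℝ × EuclideanSpace ℝ (Fin m)) :
    EuclideanSpace ℝ (Fin (m + 1)) :=
  WithLp.toLp 2 (Fin.cons p.1 (WithLp.ofLp p.2) : Fin (m + 1) → ℝ)

theorem cns_zero (m : ℕ) (p : ℝ × EuclideanSpace ℝ (Fin m)) : cns m p 0 = p.1 := rfl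

theorem cns_norm (m : ℕ) (p : ℝ × EuclideanSpace ℝ (Fin m)) :
    ‖cns m p‖ ^ 2 = p.1 ^ 2 + ‖p.2‖ ^ 2 := by
  rw [EuclideanSpace.real_norm_sq_eq, EuclideanSpace.real_norm_sq_eq, Fin.sum_univ_succ]
  rfl

/-- the same map as a measurable equivalence. -/
noncomputable def cnsE (m : ℕ) :
    ℝ × EuclideanSpace ℝ (Fin m) ≃ᵐ EuclideanSpace ℝ (Fin (m + 1)) :=
  ((MeasurableEquiv.prodCongr (MeasurableEquiv.refl ℝ)
    (MeasurableEquiv.toLp 2 (Fin m → ℝ)).symm).trans
    (MeasurableEquiv.piFinSuccAbove (fun _ : Fin (m + 1) => ℝ) 0).symm).trans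
    (MeasurableEquiv.toLp 2 (Fin (m + 1) → ℝ))

theorem cnsE_apply (m : ℕ) (p : ℝ × EuclideanSpace ℝ (Fin m)) : cnsE m p = cns m p := by
  ext i
  refine Fin.cases ?_ (fun j => ?_) i <;>
    simp [cnsE, cns, MeasurableEquiv.piFinSuccAbove, MeasurableEquiv.prodCongr,
      Fin.insertNthEquiv]

theorem cnsE_mp (m : ℕ) : MeasurePreserving (cnsE m) volume volume := by
  have h1 : MeasurePreserving (MeasurableEquiv.prodCongr (MeasurableEquiv.refl ℝ)
      (MeasurableEquiv.toLp 2 (Fin m → ℝ)).symm) volume volume :=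
    (MeasurePreserving.id volume).prod (PiLp.volume_preserving_ofLp (Fin m))
  have h2 := (volume_preserving_piFinSuccAbove (fun _ : Fin (m + 1) => ℝ) 0).symm
  have h3 : MeasurePreserving (MeasurableEquiv.toLp 2 (Fin (m + 1) → ℝ)) volume volume :=
    PiLp.volume_preserving_toLp (Fin (m + 1))
  exact (h1.trans h2).trans h3

theorem slice_zero (m : ℕ) (hm : 0 < m) (g : ℝ → ℝ) (hg : Continuous g) (t : ℝ) (ht : 0 < t) :
    ∫ w in ball (0 : EuclideanSpace ℝ (Fin (m + 1))) t, g (w 0) =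
      (volume (ball (0 : EuclideanSpace ℝ (Fin m)) 1)).toReal *
        ∫ s in (-t)..t, g s * Real.sqrt (t ^ 2 - s ^ 2) ^ m := by
  have : Nonempty (Fin m) := ⟨⟨0, hm⟩⟩
  have hc : Continuous fun w : EuclideanSpace ℝ (Fin (m + 1)) => g (w 0) := by fun_prop
  have hi : Integrable ((ball (0 : EuclideanSpace ℝ (Fin (m + 1))) t).indicator
      fun w => g (w 0)) volume :=
    ((hc.continuousOn.integrableOn_compact (isCompact_closedBall 0 t)).mono_set
      ball_subset_closedBall).integrable_indicator measurableSet_ball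
  rw [← integral_indicator measurableSet_ball, ← (cnsE_mp m).integral_comp']
  have hi2 := ((cnsE_mp m).integrable_comp_emb (cnsE m).measurableEmbedding).2 hi
  have e1 := integral_prod _ hi2
  refine e1.trans ?_
  have e2 : ∀ s : ℝ, ∫ y : EuclideanSpace ℝ (Fin m),
      ((ball (0 : EuclideanSpace ℝ (Fin (m + 1))) t).indicator (fun w => g (w 0)) ∘ cnsE m) (s, y)
      = (volume (ball (0 : EuclideanSpace ℝ (Fin m)) 1)).toReal *
        (g s * Real.sqrt (t ^ 2 - s ^ 2) ^ m) := by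
    intro s
    have e3 : ∀ y : EuclideanSpace ℝ (Fin m),
        ((ball (0 : EuclideanSpace ℝ (Fin (m + 1))) t).indicator (fun w => g (w 0)) ∘ cnsE m)
          (s, y) = (ball (0 : EuclideanSpace ℝ (Fin m))
            (Real.sqrt (t ^ 2 - s ^ 2))).indicator (fun _ => g s) y := by
      intro y
      have hn := cns_norm m (s, y)
      have hiff : cns m (s, y) ∈ ball (0 : EuclideanSpace ℝ (Fin (m + 1))) t ↔
          y ∈ ball (0 : EuclideanSpace ℝ (Fin m)) (Real.sqrt (t ^ 2 - s ^ 2)) := by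
        rw [mem_ball_zero_iff, mem_ball_zero_iff, Real.lt_sqrt (norm_nonneg _),
          ← sq_lt_sq₀ (norm_nonneg _) ht.le, hn]
        constructor <;> intro h <;> linarith
      rw [Function.comp_apply, cnsE_apply]
      by_cases h : y ∈ ball (0 : EuclideanSpace ℝ (Fin m)) (Real.sqrt (t ^ 2 - s ^ 2))
      · rw [indicator_of_mem h, indicator_of_mem (hiff.2 h), cns_zero]
      · rw [indicator_of_notMem h, indicator_of_notMem (fun h' => h (hiff.1 h'))]
    simp_rw [e3]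
    rw [integral_indicator measurableSet_ball, setIntegral_const, Measure.real,
      Measure.addHaar_ball _ _ (Real.sqrt_nonneg _), ENNReal.toReal_mul,
      ENNReal.toReal_ofReal (by positivity), finrank_euclideanSpace_fin, smul_eq_mul]
    ring
  simp_rw [e2]
  rw [integral_const_mul, intervalIntegral.integral_of_le (by linarith)]
  congr 1
  refine (setIntegral_eq_integral_of_forall_compl_eq_zero fun s hs => ?_).symm
  have h0 : t ^ 2 - s ^ 2 ≤ 0 := by
    rw [mem_Ioc, not_and_or, not_lt, not_le] at hs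
    rcases hs with h | h <;> nlinarith
  rw [Real.sqrt_eq_zero_of_nonpos h0, zero_pow hm.ne', mul_zero]

theorem slice (m : ℕ) (hm : 0 < m) (g : ℝ → ℝ) (hg : Continuous g)
    (e : EuclideanSpace ℝ (Fin (m + 1))) (he : ‖e‖ = 1) (t : ℝ) (ht : 0 < t) :
    ∫ w in ball (0 : EuclideanSpace ℝ (Fin (m + 1))) t, g ⟪e, w⟫ =
      (volume (ball (0 : EuclideanSpace ℝ (Fin m)) 1)).toReal *
        ∫ s in (-t)..t, g s * Real.sqrt (t ^ 2 - s ^ 2) ^ m := by
  rw [← slice_zero m hm g hg t ht]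
  let e0 : EuclideanSpace ℝ (Fin (m + 1)) := EuclideanSpace.single 0 1
  have h0 : ‖e0‖ = ‖e‖ := by rw [he]; simp [e0]
  let L := (Submodule.span ℝ {e0 - e})ᗮ.reflection
  have hL : L e0 = e := Submodule.reflection_sub h0
  have hp := L.measurePreserving
  have e1 := hp.setIntegral_preimage_emb L.toHomeomorph.measurableEmbedding
    (fun w => g ⟪e, w⟫) (ball 0 t)
  rw [← e1]
  have e2 : L ⁻¹' ball 0 t = ball 0 t := by
    ext w
    simp
  rw [e2]
  refine setIntegral_congr_fun measurableSet_ball fun w _ => ?_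
  have e3 : ⟪e, L w⟫ = w 0 := by
    rw [← hL, L.inner_map_map]
    simp [e0, EuclideanSpace.inner_single_left]
  simp only [e3]

theorem ball_cos (l : ℕ) : ∃ v : ℝ, 0 < v ∧ ∀ (ξ : EuclideanSpace ℝ (Fin (2 * l + 3))) (t : ℝ),
    0 < t → ∫ w in ball (0 : EuclideanSpace ℝ (Fin (2 * l + 3))) t, Real.cos ⟪ξ, w⟫ =
      v * t ^ (2 * l + 3) *
        ∫ u in (-1 : ℝ)..1, Real.cos (‖ξ‖ * t * u) * (1 - u ^ 2) ^ (l + 1) := by
  refine ⟨(volume (ball (0 : EuclideanSpace ℝ (Fin (2 * l + 2))) 1)).toReal,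
    ENNReal.toReal_pos (measure_ball_pos _ _ one_pos).ne' measure_ball_lt_top.ne, ?_⟩
  intro ξ t ht
  obtain ⟨e, he, hξ⟩ : ∃ e : EuclideanSpace ℝ (Fin (2 * l + 3)), ‖e‖ = 1 ∧ ξ = ‖ξ‖ • e := by
    by_cases h : ξ = 0
    · exact ⟨EuclideanSpace.single 0 1, by simp, by simp [h]⟩
    · have h1 : ‖ξ‖ ≠ 0 := norm_ne_zero_iff.2 h
      exact ⟨‖ξ‖⁻¹ • ξ, by rw [norm_smul, norm_inv, norm_norm, inv_mul_cancel₀ h1],
        by rw [smul_smul, mul_inv_cancel₀ h1, one_smul]⟩
  have e1 : ∀ w : EuclideanSpace ℝ (Fin (2 * l + 3)), ⟪ξ, w⟫ = ‖ξ‖ * ⟪e, w⟫ := fun w => by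
    have := congrArg (fun z => ⟪z, w⟫) hξ
    simpa only [real_inner_smul_left] using this
  simp_rw [e1]
  have e2 := slice (2 * l + 2) (by omega) (fun s => Real.cos (‖ξ‖ * s)) (by fun_prop) e he t ht
  refine e2.trans ?_
  have e3 := intervalIntegral.smul_integral_comp_mul_left (a := -1) (b := 1)
    (fun s => Real.cos (‖ξ‖ * s) * Real.sqrt (t ^ 2 - s ^ 2) ^ (2 * l + 2)) t
  rw [mul_neg, mul_one] at e3
  rw [← e3, smul_eq_mul, mul_assoc]
  congr 1
  rw [← intervalIntegral.integral_const_mul, ← intervalIntegral.integral_const_mul]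
  refine intervalIntegral.integral_congr fun u hu => ?_
  rw [uIcc_of_le (by norm_num)] at hu
  have h0 : 0 ≤ 1 - u ^ 2 := by nlinarith [hu.1, hu.2]
  have h1 : t ^ 2 - (t * u) ^ 2 = t ^ 2 * (1 - u ^ 2) := by ring
  have h2 : Real.sqrt (t ^ 2 - (t * u) ^ 2) ^ (2 * l + 2) = (t ^ 2 * (1 - u ^ 2)) ^ (l + 1) := by
    rw [h1, show 2 * l + 2 = 2 * (l + 1) by ring, pow_mul, Real.sq_sqrt (by positivity)]
  simp only [h2]
  rw [mul_pow, ← pow_mul, mul_assoc ‖ξ‖]
  ring

end Pool.Agent.MP_66cee2_co.H71
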